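import Pool.Agent.Lib.MP_f2256b_nt.Defs

/-! # Leaf: from sequences to a power of the logarithm -/

set_option autoImplicit false

open ProbabilityTheory MeasureTheory Filter Topology Finset

namespace CharCLT

private theorem exists_ne (q : ℕ) (hq : q.Prime) (χ : DirichletCharacter ℂ q) (hχ : χ ^ 2 ≠ 1) :
    ∃ n : ℕ, 1 ≤ n ∧ n < q ∧ χ (n : ZMod q) ^ 2 ≠ 1 := by
  by_contra hcon
  push Not at hcon
  haveI : Fact q.Prime := ⟨hq⟩
  apply hχ
  apply MulChar.ext
  intro u
  rw [MulChar.pow_apply_coe, MulChar.one_apply_coe]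
  have h1 : ((((u : ZMod q).val : ℕ)) : ZMod q) = (u : ZMod q) := ZMod.natCast_zmod_val _
  have h2 : (u : ZMod q).val ≠ 0 := by
    intro h0
    have : (u : ZMod q) = 0 := (ZMod.val_eq_zero _).1 h0
    exact u.ne_zero this
  have h3 := hcon (u : ZMod q).val (Nat.one_le_iff_ne_zero.2 h2) (ZMod.val_lt _)
  rw [h1] at h3
  exact h3

private theorem five_le (q : ℕ) (hq : q.Prime) (χ : DirichletCharacter ℂ q) (hχ : χ ^ 2 ≠ 1) :
    5 ≤ q := by
  obtain ⟨n, h1, h2, h3⟩ := exists_ne q hq χ hχ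
  by_contra hlt
  push Not at hlt
  have h5 : n = 1 ∨ n ≠ 1 := eq_or_ne n 1
  rcases h5 with h5 | h5
  · apply h3
    rw [h5]
    simp
  · have h6 : q ≠ 4 := by
      intro h; rw [h] at hq; exact absurd hq (by norm_num)
    have h7 : q = 3 := by omega
    have h8 : n = 2 := by omega
    subst h7
    subst h8
    apply h3
    rw [← map_pow]
    have : (((2 : ℕ) : ZMod 3)) ^ 2 = 1 := by decide
    rw [this, map_one]

private theorem log_ge (q : ℕ) (h : 5 ≤ q) : (1.3 : ℝ) ≤ Real.log q := by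
  have h1 : Real.log 4 ≤ Real.log q := by
    apply Real.log_le_log (by norm_num)
    have : (5 : ℝ) ≤ q := by exact_mod_cast h
    linarith
  have h2 : Real.log 4 = 2 * Real.log 2 := by
    rw [show (4 : ℝ) = 2 ^ 2 by norm_num, Real.log_pow]; norm_num
  have h3 := Real.log_two_gt_d9
  linarith

/-- Suppose no `C` works. For every `m` take `q_m`, `χ_m` with `χ_m(n)^2 = 1` for all
`1 ≤ n ≤ min(log(q_m)^m, q_m - 1)`. As `χ_m^2 ≠ 1`, `log(q_m)^m < q_m`, so `q_m → ∞` (`log 5 > 1`; there is no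
such `χ` mod 2, 3). Put `x_m = min(log(q_m)^m, √q_m)`, `H_m = ⌈2 q_m / x_m⌉`. Then `H_m → ∞`,
`H_m ≤ q_m` (large `m`), `log(q_m / H_m) / loglog(q_m) → ∞`; `2 q_m / H_m ≤ x_m`: contradiction to
`hyp`. (Shift the sequence to have the conditions for all `m`.) -/
theorem bound (hyp : ∀ (q : ℕ → ℕ) (χ : (k : ℕ) → DirichletCharacter ℂ (q k)) (H : ℕ → ℕ),
    (∀ k, (q k).Prime) → (∀ k, χ k ^ 2 ≠ 1) → (∀ k, 1 ≤ H k ∧ H k ≤ q k) →
    Tendsto (fun k => (H k : ℝ)) atTop atTop → Tendsto (fun k => (q k : ℝ)) atTop atTop →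
    Tendsto (fun k => Real.log ((q k : ℝ) / (H k : ℝ)) / Real.log (Real.log (q k : ℝ)))
      atTop atTop →
    ∀ᶠ k in atTop, ∃ n : ℕ, 1 ≤ n ∧ n < q k ∧ (n : ℝ) ≤ 2 * q k / H k ∧
      χ k (n : ZMod (q k)) ^ 2 ≠ 1) :
    ∃ C : ℕ, ∀ q : ℕ, q.Prime → ∀ χ : DirichletCharacter ℂ q, χ ^ 2 ≠ 1 →
      ∃ n : ℕ, 1 ≤ n ∧ n < q ∧ (n : ℝ) ≤ Real.log q ^ C ∧ χ (n : ZMod q) ^ 2 ≠ 1 := by
  by_contra hcon
  push Not at hcon
  choose q hq χ hχ hn using hcon
  have h5 : ∀ m, 5 ≤ q m := fun m => five_le (q m) (hq m) (χ m) (hχ m)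
  have hlog : ∀ m, (1.3 : ℝ) ≤ Real.log (q m) := fun m => log_ge _ (h5 m)
  have hq0 : ∀ m, (5 : ℝ) ≤ q m := fun m => by exact_mod_cast h5 m
  -- `log(q)^m < q`
  have hlt : ∀ m, Real.log (q m) ^ m < q m := by
    intro m
    obtain ⟨n, h1, h2, h3⟩ := exists_ne (q m) (hq m) (χ m) (hχ m)
    by_contra hle
    push Not at hle
    apply h3
    apply hn m n h1 h2
    have : (n : ℝ) ≤ q m := by exact_mod_cast h2.le
    linarith
  have hpow : Tendsto (fun m : ℕ => (1.3 : ℝ) ^ m) atTop atTop :=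
    tendsto_pow_atTop_atTop_of_one_lt (by norm_num)
  have hpl : ∀ m, (1.3 : ℝ) ^ m ≤ Real.log (q m) ^ m := fun m =>
    pow_le_pow_left₀ (by norm_num) (hlog m) m
  have hLt : Tendsto (fun m => Real.log (q m) ^ m) atTop atTop :=
    tendsto_atTop_mono hpl hpow
  have hqt : Tendsto (fun m => (q m : ℝ)) atTop atTop :=
    tendsto_atTop_mono (fun m => (hlt m).le) hLt
  -- the length
  set x : ℕ → ℝ := fun m => min (Real.log (q m) ^ m) (√(q m : ℝ)) with hx
  have hLpos : ∀ m, 0 < Real.log (q m) := fun m => by have := hlog m; linarith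
  have hxpos : ∀ m, 0 < x m := by
    intro m
    apply lt_min
    · exact pow_pos (hLpos m) m
    · apply Real.sqrt_pos.2; have := hq0 m; linarith
  have hsqt : Tendsto (fun m => √(q m : ℝ)) atTop atTop :=
    Real.tendsto_sqrt_atTop.comp hqt
  set H : ℕ → ℕ := fun m => ⌈2 * (q m : ℝ) / x m⌉₊ with hH
  have hHge : ∀ m, 2 * (q m : ℝ) / x m ≤ H m := fun m => Nat.le_ceil _
  have hHlt : ∀ m, (H m : ℝ) < 2 * (q m : ℝ) / x m + 1 := fun m =>
    Nat.ceil_lt_add_one (by
      apply div_nonneg _ (hxpos m).le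
      have := hq0 m; linarith)
  have hsq1 : ∀ m, 1 ≤ √(q m : ℝ) := by
    intro m
    rw [Real.one_le_sqrt]
    have := hq0 m; linarith
  have hqx : ∀ m, √(q m : ℝ) ≤ (q m : ℝ) / x m := by
    intro m
    rw [le_div_iff₀ (hxpos m)]
    calc √(q m : ℝ) * x m ≤ √(q m : ℝ) * √(q m : ℝ) :=
          mul_le_mul_of_nonneg_left (min_le_right _ _) (Real.sqrt_nonneg _)
      _ = q m := Real.mul_self_sqrt (by have := hq0 m; linarith)
  have hH3 : ∀ m, (H m : ℝ) ≤ 3 * ((q m : ℝ) / x m) := by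
    intro m
    have a := hHlt m
    have b := hqx m
    have c := hsq1 m
    have d : 2 * (q m : ℝ) / x m = 2 * ((q m : ℝ) / x m) := by ring
    rw [d] at a
    linarith
  have hH1 : ∀ m, (1 : ℝ) ≤ H m := by
    intro m
    have a := hHge m
    have b := hqx m
    have c := hsq1 m
    have d : 2 * (q m : ℝ) / x m = 2 * ((q m : ℝ) / x m) := by ring
    rw [d] at a
    linarith
  have hHq : ∀ m, 4 ≤ x m → (H m : ℝ) ≤ q m := by
    intro m h4
    have a := hHlt m
    have b : 2 * (q m : ℝ) / x m ≤ (q m : ℝ) / 2 := by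
      rw [div_le_div_iff₀ (hxpos m) (by norm_num)]
      have := hq0 m
      nlinarith
    have := hq0 m
    linarith
  have hx4 : ∀ᶠ m in atTop, 4 ≤ x m := by
    filter_upwards [hLt.eventually_ge_atTop 4, hsqt.eventually_ge_atTop 4] with m h1 h2
    exact le_min h1 h2
  have hHt : Tendsto (fun m => (H m : ℝ)) atTop atTop := by
    apply tendsto_atTop_mono _ hsqt
    intro m
    have a := hHge m
    have b := hqx m
    have c := hsq1 m
    have d : 2 * (q m : ℝ) / x m = 2 * ((q m : ℝ) / x m) := by ring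
    rw [d] at a
    linarith
  have hrat : Tendsto (fun m => Real.log ((q m : ℝ) / (H m : ℝ)) / Real.log (Real.log (q m : ℝ)))
      atTop atTop := by
    rw [tendsto_atTop]
    intro b
    obtain ⟨K, hK⟩ := exists_nat_ge b
    have h1 : ∀ᶠ m in atTop, 3 * Real.log (q m) ^ K ≤ √(q m : ℝ) := by
      have h2 : ∀ᶠ y : ℝ in atTop, ‖Real.log y ^ (2 * K)‖ ≤ (1 / 9) * ‖y‖ :=
        (Real.isLittleO_pow_log_id_atTop (n := 2 * K)).bound (by norm_num)
      filter_upwards [hqt.eventually h2] with m hm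
      have h0 : 0 ≤ Real.log (q m) ^ (2 * K) := (pow_pos (hLpos m) _).le
      have h00 : (0 : ℝ) ≤ q m := by have := hq0 m; linarith
      rw [Real.norm_of_nonneg h0, Real.norm_of_nonneg h00] at hm
      apply Real.le_sqrt_of_sq_le
      have : (3 * Real.log (q m) ^ K) ^ 2 = 9 * Real.log (q m) ^ (2 * K) := by
        rw [mul_pow, ← pow_mul, mul_comm K 2]; norm_num
      rw [this]
      linarith
    filter_upwards [h1, eventually_ge_atTop (K + 5)] with m hm hmK
    have h2 : 3 * Real.log (q m) ^ K ≤ Real.log (q m) ^ m := by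
      obtain ⟨j, rfl⟩ := Nat.exists_eq_add_of_le hmK
      have e1 : Real.log (q (K + 5 + j)) ^ (K + 5 + j) =
          Real.log (q (K + 5 + j)) ^ (5 + j) * Real.log (q (K + 5 + j)) ^ K := by
        rw [← pow_add]; congr 1; ring
      rw [e1]
      apply mul_le_mul_of_nonneg_right _ (pow_pos (hLpos _) _).le
      calc (3 : ℝ) ≤ 1.3 ^ 5 := by norm_num
        _ ≤ 1.3 ^ (5 + j) := pow_le_pow_right₀ (by norm_num) (by omega)
        _ ≤ Real.log (q (K + 5 + j)) ^ (5 + j) := pow_le_pow_left₀ (by norm_num) (hlog _) _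
    have h3 : 3 * Real.log (q m) ^ K ≤ x m := le_min h2 hm
    have hHp : (0 : ℝ) < H m := by have := hH1 m; linarith
    have h4 : Real.log (q m) ^ K ≤ (q m : ℝ) / H m := by
      rw [le_div_iff₀ hHp]
      have a := hH3 m
      have hp : 0 < Real.log (q m) ^ K := pow_pos (hLpos m) K
      have hqx0 : 0 ≤ (q m : ℝ) / x m := by
        apply div_nonneg _ (hxpos m).le
        have := hq0 m; linarith
      calc Real.log (q m) ^ K * H m ≤ Real.log (q m) ^ K * (3 * ((q m : ℝ) / x m)) :=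
            mul_le_mul_of_nonneg_left a hp.le
        _ = (3 * Real.log (q m) ^ K) * ((q m : ℝ) / x m) := by ring
        _ ≤ x m * ((q m : ℝ) / x m) := mul_le_mul_of_nonneg_right h3 hqx0
        _ = q m := mul_div_cancel₀ _ (hxpos m).ne'
    have hll : 0 < Real.log (Real.log (q m)) := by
      apply Real.log_pos
      have := hlog m; linarith
    have h5' : (K : ℝ) * Real.log (Real.log (q m)) ≤ Real.log ((q m : ℝ) / H m) := by
      rw [← Real.log_pow]
      exact Real.log_le_log (pow_pos (hLpos m) K) h4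
    rw [le_div_iff₀ hll]
    calc b * Real.log (Real.log (q m)) ≤ K * Real.log (Real.log (q m)) :=
          mul_le_mul_of_nonneg_right hK hll.le
      _ ≤ _ := h5'
  obtain ⟨M, hM⟩ := eventually_atTop.1 hx4
  have hsh : Tendsto (fun k : ℕ => k + M) atTop atTop := tendsto_add_atTop_nat M
  have key := hyp (fun k => q (k + M)) (fun k => χ (k + M)) (fun k => H (k + M))
    (fun k => hq _) (fun k => hχ _)
    (fun k => ⟨by exact_mod_cast hH1 (k + M), by exact_mod_cast hHq (k + M) (hM _ (by omega))⟩)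
    (hHt.comp hsh) (hqt.comp hsh) (hrat.comp hsh)
  obtain ⟨k, n, h1, h2, h3, h4⟩ := key.exists
  apply h4
  apply hn (k + M) n h1 h2
  have hHp : (0 : ℝ) < H (k + M) := by have := hH1 (k + M); linarith
  have h6 : 2 * (q (k + M) : ℝ) / H (k + M) ≤ x (k + M) := by
    rw [div_le_iff₀ hHp]
    have a := hHge (k + M)
    rw [div_le_iff₀ (hxpos _)] at a
    linarith
  exact h3.trans (h6.trans (min_le_left _ _))

end CharCLT
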