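import Mathlib

/-! # MP_f2256b_nt: definitions (helper14) -/

set_option autoImplicit false

open ProbabilityTheory MeasureTheory Filter Topology Finset

namespace CharCLT

/-- `χ(X+1) + ... + χ(X+H)`. -/
noncomputable def S {q : ℕ} (χ : DirichletCharacter ℂ q) (H X : ℕ) : ℂ :=
  ∑ n ∈ Ioc X (X + H), χ (n : ZMod q)

/-- `|sum_(j < H) e(a j / q)|^2 / (q H)`, the Fejer weight of width `q / H`. -/
noncomputable def w (q H a : ℕ) : ℝ :=
  ‖∑ j ∈ range H, Complex.exp (2 * Real.pi * Complex.I * (a * j / q))‖ ^ 2 / (q * H)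

/-- The mean of `f` with respect to the complex Gaussian `Z_1 + i Z_2`, `Z_1, Z_2` independent `N(0, 1/2)`. -/
noncomputable def G (f : ℂ → ℝ) : ℝ :=
  ∫ x, ∫ y, f ((x : ℂ) + (y : ℂ) * Complex.I) ∂(gaussianReal 0 2⁻¹) ∂(gaussianReal 0 2⁻¹)

/-- The mean of `f (S(X) / √H)`, `X` uniform in `{0, ..., q - 1}`. -/
noncomputable def A {q : ℕ} (χ : DirichletCharacter ℂ q) (H : ℕ) (f : ℂ → ℝ) : ℝ :=
  (1 / (q : ℝ)) * ∑ X ∈ range q, f (S χ H X / ((√(H : ℝ) : ℝ) : ℂ))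

/-- The central limit theorem for the characters `χ k` mod `q k` and the lengths `H k`:
`S(X) / √H` converges in distribution to the complex Gaussian. -/
def CLT (q : ℕ → ℕ) (χ : (k : ℕ) → DirichletCharacter ℂ (q k)) (H : ℕ → ℕ) : Prop :=
  ∀ f : ℂ → ℝ, Continuous f → (∃ C : ℝ, ∀ z, |f z| ≤ C) →
    Tendsto (fun k => A (χ k) (H k) f) atTop (𝓝 (G f))

/-- Part (b) of Q1, for all sequences of non-real characters (`χ ^ 2 ≠ 1`) modulo primes. -/
def Q1b : Prop :=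
  ∀ (q : ℕ → ℕ) (χ : (k : ℕ) → DirichletCharacter ℂ (q k)) (H : ℕ → ℕ),
    (∀ k, (q k).Prime) → (∀ k, χ k ^ 2 ≠ 1) → (∀ k, 1 ≤ H k ∧ H k ≤ q k) →
    Tendsto (fun k => (H k : ℝ)) atTop atTop → Tendsto (fun k => (q k : ℝ)) atTop atTop →
    Tendsto (fun k => Real.log ((q k : ℝ) / (H k : ℝ)) / Real.log (Real.log (q k : ℝ)))
      atTop atTop → CLT q χ H

end CharCLT
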