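import Pool.Agent.Lib.MP_f2256b_nt.Defs

/-! # Leaf: the exact identities for the second moments -/

set_option autoImplicit false

open ProbabilityTheory MeasureTheory Filter Topology Finset

namespace CharCLT

private theorem fo_geom {q : ℕ} {r : ℂ} (h1 : r ^ q = 1) (h2 : r ≠ 1) :
    ∑ a ∈ range q, r ^ a = 0 := by
  have h3 := geom_sum_mul r q
  rw [h1, sub_self] at h3
  exact (mul_eq_zero.mp h3).resolve_right (sub_ne_zero.mpr h2)

/-- Orthogonality: `sum_(a < q) |sum_(j < H) e(a j / q)|^2 = q H` for `H ≤ q`. -/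
theorem w_sum {q H : ℕ} (hH : 1 ≤ H) (hHq : H ≤ q) : ∑ a ∈ range q, w q H a = 1 := by
  have hq : q ≠ 0 := by omega
  have hqC : (q : ℂ) ≠ 0 := by exact_mod_cast hq
  have hqR : (q : ℝ) ≠ 0 := by exact_mod_cast hq
  have hHR : (H : ℝ) ≠ 0 := by
    have : H ≠ 0 := by omega
    exact_mod_cast this
  set ζ : ℂ := Complex.exp (2 * Real.pi * Complex.I / q) with hζ
  have hprim : IsPrimitiveRoot ζ q := Complex.isPrimitiveRoot_exp q hq
  have hexp : ∀ a j : ℕ, Complex.exp (2 * Real.pi * Complex.I * (a * j / q)) = (ζ ^ j) ^ a := by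
    intro a j
    rw [hζ, ← Complex.exp_nat_mul, ← Complex.exp_nat_mul]
    congr 1
    field_simp
  have hnorm : ‖ζ‖ = 1 := hprim.norm'_eq_one hq
  have hconj : ∀ k : ℕ, (starRingEnd ℂ) (ζ ^ k) = (ζ ^ k)⁻¹ := by
    intro k
    rw [Complex.inv_def, Complex.normSq_eq_norm_sq, norm_pow, hnorm]
    simp
  have key : ∀ j ∈ range H, ∀ k ∈ range H,
      ∑ a ∈ range q, (ζ ^ j) ^ a * (starRingEnd ℂ) ((ζ ^ k) ^ a) =
        if j = k then (q : ℂ) else 0 := by
    intro j hj k hk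
    rw [mem_range] at hj hk
    have e : ∀ a : ℕ, (ζ ^ j) ^ a * (starRingEnd ℂ) ((ζ ^ k) ^ a) = (ζ ^ j * (ζ ^ k)⁻¹) ^ a := by
      intro a
      rw [map_pow, hconj, ← mul_pow]
    simp only [e]
    have hne : ζ ^ k ≠ 0 := pow_ne_zero _ (hprim.ne_zero hq)
    split_ifs with hjk
    · rw [hjk, mul_inv_cancel₀ hne]
      simp
    · refine fo_geom ?_ ?_
      · rw [mul_pow, inv_pow, ← pow_mul, ← pow_mul, mul_comm j q, mul_comm k q, pow_mul, pow_mul,
          hprim.pow_eq_one]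
        simp
      · intro h
        have h2 : ζ ^ j = ζ ^ k := (mul_inv_eq_one₀ hne).mp h
        exact hjk (hprim.pow_inj (by omega) (by omega) h2)
  have hC : ((∑ a ∈ range q, ‖∑ j ∈ range H,
      Complex.exp (2 * Real.pi * Complex.I * (a * j / q))‖ ^ 2 : ℝ) : ℂ) = q * H := by
    rw [Complex.ofReal_sum]
    have h1 : ∀ a ∈ range q, ((‖∑ j ∈ range H,
        Complex.exp (2 * Real.pi * Complex.I * (a * j / q))‖ ^ 2 : ℝ) : ℂ) =
        ∑ j ∈ range H, ∑ k ∈ range H, (ζ ^ j) ^ a * (starRingEnd ℂ) ((ζ ^ k) ^ a) := by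
      intro a _
      rw [Complex.ofReal_pow, ← Complex.mul_conj', map_sum, Finset.sum_mul_sum]
      simp only [hexp]
    rw [Finset.sum_congr rfl h1, Finset.sum_comm]
    have h2 : ∀ j ∈ range H, ∑ a ∈ range q, ∑ k ∈ range H,
        (ζ ^ j) ^ a * (starRingEnd ℂ) ((ζ ^ k) ^ a) = q := by
      intro j hj
      rw [Finset.sum_comm, Finset.sum_congr rfl (key j hj), Finset.sum_ite_eq, if_pos hj]
    rw [Finset.sum_congr rfl h2, Finset.sum_const, card_range, nsmul_eq_mul]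
    ring
  have hR : ∑ a ∈ range q, ‖∑ j ∈ range H,
      Complex.exp (2 * Real.pi * Complex.I * (a * j / q))‖ ^ 2 = (q : ℝ) * H := by
    exact_mod_cast hC
  unfold w
  rw [← Finset.sum_div, hR]
  field_simp

private theorem fo_range {q : ℕ} [NeZero q] (f : ZMod q → ℂ) :
    ∑ X ∈ range q, f (X : ZMod q) = ∑ x : ZMod q, f x := by
  refine Finset.sum_nbij' (fun X => (X : ZMod q)) (fun x => x.val) ?_ ?_ ?_ ?_ ?_
  · intro a _
    exact mem_univ _
  · intro x _
    exact mem_range.mpr (ZMod.val_lt x)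
  · intro a ha
    exact ZMod.val_cast_of_lt (mem_range.mp ha)
  · intro x _
    exact ZMod.natCast_zmod_val x
  · intro a _
    rfl

private theorem fo_S {q : ℕ} (χ : DirichletCharacter ℂ q) (H X : ℕ) :
    S χ H X = ∑ j ∈ range H, χ ((X : ZMod q) + 1 + (j : ZMod q)) := by
  unfold S
  refine Finset.sum_nbij' (fun n => n - X - 1) (fun j => X + 1 + j) ?_ ?_ ?_ ?_ ?_
  · intro a ha
    rw [mem_Ioc] at ha
    rw [mem_range]
    omega
  · intro a ha
    rw [mem_range] at ha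
    rw [mem_Ioc]
    omega
  · intro a ha
    rw [mem_Ioc] at ha
    omega
  · intro a _
    omega
  · intro a ha
    rw [mem_Ioc] at ha
    have e : a = X + 1 + (a - X - 1) := by omega
    conv_lhs => rw [e]
    push_cast
    rfl

private theorem fo_corr {q : ℕ} [Fact q.Prime] (χ : DirichletCharacter ℂ q) (hχ : χ ≠ 1)
    (d : ZMod q) : ∑ x : ZMod q, χ (x + d) * (starRingEnd ℂ) (χ x) =
      (if d = 0 then (q : ℂ) else 0) - 1 := by
  have hst : ∀ x : ZMod q, (starRingEnd ℂ) (χ x) = χ x⁻¹ := by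
    intro x
    have h1 : (starRingEnd ℂ) (χ x) = χ⁻¹ x := by
      rw [← MulChar.star_eq_inv]
      rfl
    rw [h1, MulChar.inv_apply']
  simp only [hst]
  have h0 : χ (0 : ZMod q) = 0 := MulChar.map_zero χ
  by_cases hd : d = 0
  · rw [if_pos hd]
    have e : ∀ x : ZMod q, χ (x + d) * χ x⁻¹ = 1 - (if x = 0 then 1 else 0) := by
      intro x
      rw [hd, add_zero]
      split_ifs with hx
      · rw [hx, h0]
        simp
      · rw [← map_mul, mul_inv_cancel₀ hx, map_one]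
        simp
    simp only [e]
    rw [Finset.sum_sub_distrib, Finset.sum_ite_eq', if_pos (mem_univ _), Finset.sum_const,
      card_univ, ZMod.card]
    simp
  · rw [if_neg hd]
    have e : ∀ x : ZMod q, χ (x + d) * χ x⁻¹ = χ (1 + d * x⁻¹) - (if x = 0 then 1 else 0) := by
      intro x
      split_ifs with hx
      · rw [hx, inv_zero, h0]
        simp
      · rw [← map_mul, add_mul, mul_inv_cancel₀ hx]
        simp
    simp only [e]
    rw [Finset.sum_sub_distrib, Finset.sum_ite_eq', if_pos (mem_univ _)]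
    congr 1
    have hinv : Function.Involutive (fun x : ZMod q => d * x⁻¹) := by
      intro x
      show d * (d * x⁻¹)⁻¹ = x
      rw [mul_inv, inv_inv, ← mul_assoc, mul_inv_cancel₀ hd, one_mul]
    have h1 : ∑ x : ZMod q, χ (1 + d * x⁻¹) = ∑ y : ZMod q, χ (1 + y) :=
      Equiv.sum_comp hinv.toPerm (fun y => χ (1 + y))
    have h2 : ∑ y : ZMod q, χ (1 + y) = ∑ y : ZMod q, χ y :=
      Equiv.sum_comp (Equiv.addLeft (1 : ZMod q)) (fun y => χ y)
    rw [h1, h2, MulChar.sum_eq_zero_of_ne_one hχ]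

/-- `sum_X |S(X)|^2 = sum_(a ≠ 0) |D(a)|^2 = q H - H^2`. Fourier transform:
`sum_X S(X) e(a X / q) = (sum_(j = 1..H) e(- a j / q)) * χ⁻¹(a) * τ`, `|τ|^2 = q`, Parseval. -/
theorem second {q H : ℕ} (hq : q.Prime) (hH : 1 ≤ H) (hHq : H ≤ q) (χ : DirichletCharacter ℂ q)
    (hχ : χ ≠ 1) : ∑ X ∈ range q, ‖S χ H X‖ ^ 2 = (q : ℝ) * H - (H : ℝ) ^ 2 := by
  have : Fact q.Prime := ⟨hq⟩
  have key : ∀ j ∈ range H, ∀ k ∈ range H,
      ∑ X ∈ range q, χ ((X : ZMod q) + 1 + (j : ZMod q)) *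
        (starRingEnd ℂ) (χ ((X : ZMod q) + 1 + (k : ZMod q))) =
        (if j = k then (q : ℂ) else 0) - 1 := by
    intro j hj k hk
    rw [mem_range] at hj hk
    rw [fo_range (fun x : ZMod q => χ (x + 1 + (j : ZMod q)) *
        (starRingEnd ℂ) (χ (x + 1 + (k : ZMod q))))]
    have h1 : ∑ x : ZMod q, χ (x + 1 + (j : ZMod q)) *
        (starRingEnd ℂ) (χ (x + 1 + (k : ZMod q))) =
        ∑ x : ZMod q, χ (x + ((j : ZMod q) - (k : ZMod q))) * (starRingEnd ℂ) (χ x) := by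
      rw [← Equiv.sum_comp (Equiv.addRight ((1 : ZMod q) + (k : ZMod q)))
        (fun x => χ (x + ((j : ZMod q) - (k : ZMod q))) * (starRingEnd ℂ) (χ x))]
      refine Finset.sum_congr rfl fun x _ => ?_
      simp only [Equiv.coe_addRight]
      have e1 : x + (1 + (k : ZMod q)) + ((j : ZMod q) - (k : ZMod q)) = x + 1 + (j : ZMod q) := by
        ring
      have e2 : x + (1 + (k : ZMod q)) = x + 1 + (k : ZMod q) := by ring
      rw [e1, e2]
    rw [h1, fo_corr χ hχ]
    have h2 : ((j : ZMod q) - (k : ZMod q) = 0) ↔ j = k := by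
      rw [sub_eq_zero, ZMod.natCast_eq_natCast_iff', Nat.mod_eq_of_lt (by omega),
        Nat.mod_eq_of_lt (by omega)]
    simp only [h2]
  have hC : ((∑ X ∈ range q, ‖S χ H X‖ ^ 2 : ℝ) : ℂ) = q * H - (H : ℂ) ^ 2 := by
    rw [Complex.ofReal_sum]
    have h1 : ∀ X ∈ range q, ((‖S χ H X‖ ^ 2 : ℝ) : ℂ) =
        ∑ j ∈ range H, ∑ k ∈ range H, χ ((X : ZMod q) + 1 + (j : ZMod q)) *
        (starRingEnd ℂ) (χ ((X : ZMod q) + 1 + (k : ZMod q))) := by
      intro X _
      rw [Complex.ofReal_pow, ← Complex.mul_conj', fo_S, map_sum, Finset.sum_mul_sum]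
    rw [Finset.sum_congr rfl h1, Finset.sum_comm]
    have h2 : ∀ j ∈ range H, ∑ X ∈ range q, ∑ k ∈ range H,
        χ ((X : ZMod q) + 1 + (j : ZMod q)) *
        (starRingEnd ℂ) (χ ((X : ZMod q) + 1 + (k : ZMod q))) = (q : ℂ) - H := by
      intro j hj
      rw [Finset.sum_comm, Finset.sum_congr rfl (key j hj), Finset.sum_sub_distrib,
        Finset.sum_ite_eq, if_pos hj, Finset.sum_const, card_range]
      simp
    rw [Finset.sum_congr rfl h2, Finset.sum_const, card_range, nsmul_eq_mul]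
    ring
  exact_mod_cast hC

end CharCLT
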