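import Pool.Agent.Lib.MP_f2256b_nt.Defs

/-! # Leaf: cut off second moments of the complex Gaussian -/

set_option autoImplicit false

open ProbabilityTheory MeasureTheory Filter Topology Finset

namespace CharCLT

private theorem Gauss_re (x y : ℝ) : (((x : ℂ) + (y : ℂ) * Complex.I) ^ 2).re = x ^ 2 - y ^ 2 := by
  simp [pow_two]

private theorem Gauss_im (x y : ℝ) : (((x : ℂ) + (y : ℂ) * Complex.I) ^ 2).im = 2 * (x * y) := by
  simp [pow_two]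
  ring

private theorem Gauss_norm (x y : ℝ) : ‖(x : ℂ) + (y : ℂ) * Complex.I‖ ^ 2 = x ^ 2 + y ^ 2 := by
  rw [← Complex.normSq_eq_norm_sq, Complex.normSq_apply]
  simp
  ring

private theorem Gauss_pos {T : ℝ} (hT : 0 < T) (x y : ℝ) : 0 < 1 + (x ^ 2 + y ^ 2) / T := by
  positivity

/-- swap `x` and `y` (`integral_integral_swap`): `(z^2).re = x^2 - y^2` is antisymmetric. -/
theorem G_re {T : ℝ} (hT : 0 < T) : G (fun z => (z ^ 2).re / (1 + ‖z‖ ^ 2 / T)) = 0 := by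
  have hG : G (fun z => (z ^ 2).re / (1 + ‖z‖ ^ 2 / T)) =
      ∫ x, ∫ y, (x ^ 2 - y ^ 2) / (1 + (x ^ 2 + y ^ 2) / T)
        ∂(gaussianReal 0 2⁻¹) ∂(gaussianReal 0 2⁻¹) := by
    unfold G
    simp only [Gauss_re, Gauss_norm]
  rw [hG]
  have hint : Integrable (Function.uncurry fun x y : ℝ =>
      (x ^ 2 - y ^ 2) / (1 + (x ^ 2 + y ^ 2) / T))
      ((gaussianReal 0 2⁻¹).prod (gaussianReal 0 2⁻¹)) := by
    refine Integrable.of_bound (Continuous.aestronglyMeasurable ?_) T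
      (Filter.Eventually.of_forall fun p => ?_)
    · refine Continuous.div (by fun_prop) (by fun_prop) fun p => (Gauss_pos hT p.1 p.2).ne'
    · show ‖(p.1 ^ 2 - p.2 ^ 2) / (1 + (p.1 ^ 2 + p.2 ^ 2) / T)‖ ≤ T
      have h1 := Gauss_pos hT p.1 p.2
      rw [Real.norm_eq_abs, abs_div, abs_of_pos h1, div_le_iff₀ h1]
      have h2 : T * (1 + (p.1 ^ 2 + p.2 ^ 2) / T) = T + (p.1 ^ 2 + p.2 ^ 2) := by
        field_simp
      rw [h2, abs_le]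
      constructor
      · nlinarith [sq_nonneg p.1, sq_nonneg p.2]
      · nlinarith [sq_nonneg p.1, sq_nonneg p.2]
  have h1 := integral_integral_swap hint
  have h2 : ∫ y, ∫ x, (x ^ 2 - y ^ 2) / (1 + (x ^ 2 + y ^ 2) / T)
      ∂(gaussianReal 0 2⁻¹) ∂(gaussianReal 0 2⁻¹) =
      -∫ x, ∫ y, (x ^ 2 - y ^ 2) / (1 + (x ^ 2 + y ^ 2) / T)
      ∂(gaussianReal 0 2⁻¹) ∂(gaussianReal 0 2⁻¹) := by
    rw [← integral_neg]
    refine integral_congr_ae (Filter.Eventually.of_forall fun y => ?_)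
    show ∫ x, (x ^ 2 - y ^ 2) / (1 + (x ^ 2 + y ^ 2) / T) ∂(gaussianReal 0 2⁻¹) =
      -∫ x, (y ^ 2 - x ^ 2) / (1 + (y ^ 2 + x ^ 2) / T) ∂(gaussianReal 0 2⁻¹)
    rw [← integral_neg]
    refine integral_congr_ae (Filter.Eventually.of_forall fun x => ?_)
    show (x ^ 2 - y ^ 2) / (1 + (x ^ 2 + y ^ 2) / T) =
      -((y ^ 2 - x ^ 2) / (1 + (y ^ 2 + x ^ 2) / T))
    rw [add_comm (y ^ 2) (x ^ 2), ← neg_div, neg_sub]
  rw [h2] at h1
  linarith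

/-- `y ↦ -y`: `(z^2).im = 2 x y` is odd in `y`. -/
theorem G_im {T : ℝ} (hT : 0 < T) : G (fun z => (z ^ 2).im / (1 + ‖z‖ ^ 2 / T)) = 0 := by
  have hmp : MeasurePreserving (fun y : ℝ => -y) (gaussianReal 0 2⁻¹) (gaussianReal 0 2⁻¹) :=
    ⟨measurable_neg, by rw [gaussianReal_map_neg, neg_zero]⟩
  unfold G
  simp only [Gauss_im, Gauss_norm]
  have key : ∀ x : ℝ, ∫ y, 2 * (x * y) / (1 + (x ^ 2 + y ^ 2) / T) ∂(gaussianReal 0 2⁻¹) = 0 := by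
    intro x
    have h1 := hmp.integral_comp (MeasurableEquiv.neg ℝ).measurableEmbedding
      (fun y : ℝ => 2 * (x * y) / (1 + (x ^ 2 + y ^ 2) / T))
    have h2 : ∫ y, 2 * (x * -y) / (1 + (x ^ 2 + (-y) ^ 2) / T) ∂(gaussianReal 0 2⁻¹) =
        -∫ y, 2 * (x * y) / (1 + (x ^ 2 + y ^ 2) / T) ∂(gaussianReal 0 2⁻¹) := by
      rw [← integral_neg]
      refine integral_congr_ae (Filter.Eventually.of_forall fun y => ?_)
      show 2 * (x * -y) / (1 + (x ^ 2 + (-y) ^ 2) / T) =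
        -(2 * (x * y) / (1 + (x ^ 2 + y ^ 2) / T))
      rw [neg_sq, ← neg_div]
      congr 1
      ring
    have h3 := h2.symm.trans h1
    linarith
  simp only [key]
  exact integral_zero _ _

private theorem Gauss_sq : ∫ x, x ^ 2 ∂(gaussianReal 0 2⁻¹) = 1 / 2 := by
  have h1 : variance (id : ℝ → ℝ) (gaussianReal 0 2⁻¹) = ∫ x, (id x : ℝ) ^ 2 ∂(gaussianReal 0 2⁻¹) :=
    variance_of_integral_eq_zero aemeasurable_id (by
      show ∫ x, x ∂(gaussianReal 0 2⁻¹) = 0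
      exact integral_id_gaussianReal)
  rw [variance_id_gaussianReal] at h1
  have h2 : ∫ x, x ^ 2 ∂(gaussianReal 0 2⁻¹) = ((2⁻¹ : NNReal) : ℝ) := h1.symm
  rw [h2]
  norm_num

private theorem Gauss_int : Integrable (fun x : ℝ => x ^ 2) (gaussianReal 0 2⁻¹) :=
  (memLp_id_gaussianReal (μ := 0) (v := 2⁻¹) 2).integrable_sq

/-- dominated convergence, `G (‖z‖^2) = 1/2 + 1/2`. -/
theorem G_norm : Tendsto (fun T : ℕ => G (fun z => ‖z‖ ^ 2 / (1 + ‖z‖ ^ 2 / ((T : ℝ) + 1)))) atTop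
    (𝓝 1) := by
  have hT : ∀ T : ℕ, (0 : ℝ) < (T : ℝ) + 1 := fun T => by positivity
  have hri : Integrable (fun p : ℝ × ℝ => p.1 ^ 2 + p.2 ^ 2)
      ((gaussianReal 0 2⁻¹).prod (gaussianReal 0 2⁻¹)) :=
    (Gauss_int.comp_fst _).add (Gauss_int.comp_snd _)
  have hr : ∫ p : ℝ × ℝ, (p.1 ^ 2 + p.2 ^ 2) ∂((gaussianReal 0 2⁻¹).prod (gaussianReal 0 2⁻¹)) =
      1 := by
    rw [integral_add (Gauss_int.comp_fst _) (Gauss_int.comp_snd _),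
      integral_fun_fst (fun x : ℝ => x ^ 2), integral_fun_snd (fun x : ℝ => x ^ 2), Gauss_sq]
    simp
    norm_num
  have hcont : ∀ T : ℕ, Continuous fun p : ℝ × ℝ =>
      (p.1 ^ 2 + p.2 ^ 2) / (1 + (p.1 ^ 2 + p.2 ^ 2) / ((T : ℝ) + 1)) := fun T =>
    Continuous.div (by fun_prop) (by fun_prop) fun p => (Gauss_pos (hT T) p.1 p.2).ne'
  have hbd : ∀ (T : ℕ) (p : ℝ × ℝ),
      ‖(p.1 ^ 2 + p.2 ^ 2) / (1 + (p.1 ^ 2 + p.2 ^ 2) / ((T : ℝ) + 1))‖ ≤ p.1 ^ 2 + p.2 ^ 2 := by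
    intro T p
    have h0 : 0 ≤ p.1 ^ 2 + p.2 ^ 2 := by positivity
    have h1 : 1 ≤ 1 + (p.1 ^ 2 + p.2 ^ 2) / ((T : ℝ) + 1) := by
      have : 0 ≤ (p.1 ^ 2 + p.2 ^ 2) / ((T : ℝ) + 1) := div_nonneg h0 (hT T).le
      linarith
    rw [Real.norm_eq_abs, abs_of_nonneg (div_nonneg h0 (by linarith))]
    exact div_le_self h0 h1
  have hG : ∀ T : ℕ, G (fun z => ‖z‖ ^ 2 / (1 + ‖z‖ ^ 2 / ((T : ℝ) + 1))) =
      ∫ p : ℝ × ℝ, (p.1 ^ 2 + p.2 ^ 2) / (1 + (p.1 ^ 2 + p.2 ^ 2) / ((T : ℝ) + 1))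
        ∂((gaussianReal 0 2⁻¹).prod (gaussianReal 0 2⁻¹)) := by
    intro T
    rw [integral_prod _ (hri.mono' (hcont T).aestronglyMeasurable
      (Filter.Eventually.of_forall (hbd T)))]
    unfold G
    simp only [Gauss_norm]
  simp only [hG]
  suffices hpt : ∀ p : ℝ × ℝ, Tendsto (fun T : ℕ => (p.1 ^ 2 + p.2 ^ 2) /
      (1 + (p.1 ^ 2 + p.2 ^ 2) / ((T : ℝ) + 1))) atTop (𝓝 (p.1 ^ 2 + p.2 ^ 2)) by
    have hlim := tendsto_integral_of_dominated_convergence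
      (μ := (gaussianReal 0 2⁻¹).prod (gaussianReal 0 2⁻¹)) (fun p : ℝ × ℝ => p.1 ^ 2 + p.2 ^ 2)
      (fun T => (hcont T).aestronglyMeasurable) hri
      (fun T => Filter.Eventually.of_forall (hbd T)) (Filter.Eventually.of_forall hpt)
    rw [hr] at hlim
    exact hlim
  intro p
  have h1 : Tendsto (fun T : ℕ => (p.1 ^ 2 + p.2 ^ 2) / ((T : ℝ) + 1)) atTop (𝓝 0) :=
    tendsto_const_nhds.div_atTop
      (tendsto_atTop_add_const_right _ _ tendsto_natCast_atTop_atTop)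
  have h2 : Tendsto (fun T : ℕ => (p.1 ^ 2 + p.2 ^ 2) / (1 + (p.1 ^ 2 + p.2 ^ 2) / ((T : ℝ) + 1)))
      atTop (𝓝 ((p.1 ^ 2 + p.2 ^ 2) / (1 + 0))) :=
    tendsto_const_nhds.div (tendsto_const_nhds.add h1) (by norm_num)
  rw [add_zero, div_one] at h2
  exact h2

end CharCLT
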