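import Pool.Agent.Lib.MP_f2256b_nt.Defs

/-! # Leaf: the tail of the Fejer weights -/

set_option autoImplicit false

open ProbabilityTheory MeasureTheory Filter Topology Finset

namespace CharCLT

private theorem sin_low {q a : ℕ} (ha : 0 < a) (haq : a < q) :
    ∃ m : ℝ, 0 < m ∧ 2 * m / q ≤ Real.sin (Real.pi * a / q) ∧
      1 / m ^ 2 ≤ 1 / (a : ℝ) ^ 2 + 1 / ((q : ℝ) - a) ^ 2 := by
  have hq : (0 : ℝ) < q := by exact_mod_cast (ha.trans haq)
  have ha' : (0 : ℝ) < a := by exact_mod_cast ha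
  have haq' : (a : ℝ) < q := by exact_mod_cast haq
  have hqa : (0 : ℝ) < (q : ℝ) - a := by linarith
  have hpi := Real.pi_pos
  rcases le_or_gt (2 * (a : ℝ)) q with h | h
  · refine ⟨a, ha', ?_, ?_⟩
    · have h1 : Real.pi * a / q ≤ Real.pi / 2 := by
        rw [div_le_div_iff₀ hq (by norm_num)]
        nlinarith
      have h2 := Real.mul_le_sin (x := Real.pi * a / q) (by positivity) h1
      refine le_trans (le_of_eq ?_) h2
      field_simp
    · have : 0 ≤ 1 / ((q : ℝ) - a) ^ 2 := by positivity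
      linarith
  · refine ⟨(q : ℝ) - a, hqa, ?_, ?_⟩
    · have h0 : Real.sin (Real.pi * a / q) = Real.sin (Real.pi * ((q : ℝ) - a) / q) := by
        rw [← Real.sin_pi_sub]
        congr 1
        field_simp
      rw [h0]
      have h1 : Real.pi * ((q : ℝ) - a) / q ≤ Real.pi / 2 := by
        rw [div_le_div_iff₀ hq (by norm_num)]
        nlinarith
      have h2 := Real.mul_le_sin (x := Real.pi * ((q : ℝ) - a) / q) (by positivity) h1
      refine le_trans (le_of_eq ?_) h2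
      field_simp
    · have : 0 ≤ 1 / (a : ℝ) ^ 2 := by positivity
      linarith

/-- `|D(a)| ≤ 1 / |sin (π a / q)| ≤ q / (2 min(a, q - a))` for `0 < a < q`. -/
theorem w_le {q H a : ℕ} (hH : 1 ≤ H) (ha : 0 < a) (haq : a < q) :
    w q H a ≤ (q : ℝ) / (4 * H) * (1 / (a : ℝ) ^ 2 + 1 / ((q : ℝ) - a) ^ 2) := by
  have hq : (0 : ℝ) < q := by exact_mod_cast (ha.trans haq)
  have hH' : (0 : ℝ) < H := by exact_mod_cast hH
  obtain ⟨m, hm, hsin, hm2⟩ := sin_low ha haq
  set z : ℂ := Complex.exp (Complex.I * ((2 * Real.pi * a / q : ℝ) : ℂ)) with hz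
  have hD : ∑ j ∈ range H, Complex.exp (2 * Real.pi * Complex.I * (a * j / q))
      = ∑ j ∈ range H, z ^ j := by
    refine Finset.sum_congr rfl fun j _ => ?_
    rw [hz, ← Complex.exp_nat_mul]
    congr 1
    push_cast
    ring
  have hz1 : ‖z‖ = 1 := by
    rw [hz, mul_comm]
    exact Complex.norm_exp_ofReal_mul_I _
  have hgeo : (∑ j ∈ range H, z ^ j) * (z - 1) = z ^ H - 1 := geom_sum_mul z H
  have hn : ‖∑ j ∈ range H, z ^ j‖ * ‖z - 1‖ ≤ 2 := by
    rw [← norm_mul, hgeo]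
    refine (norm_sub_le _ _).trans ?_
    rw [norm_pow, hz1, one_pow, norm_one]
    norm_num
  have hzn : 4 * m / q ≤ ‖z - 1‖ := by
    rw [hz, Complex.norm_exp_I_mul_ofReal_sub_one]
    have h1 : 2 * Real.pi * a / q / 2 = Real.pi * a / q := by ring
    rw [h1]
    have h2 : 0 ≤ Real.sin (Real.pi * a / q) := le_trans (by positivity) hsin
    rw [Real.norm_eq_abs, abs_of_nonneg (by positivity)]
    have h3 : 4 * m / (q : ℝ) = 2 * (2 * m / q) := by ring
    rw [h3]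
    linarith
  set D : ℝ := ‖∑ j ∈ range H, z ^ j‖ with hDd
  have hD0 : 0 ≤ D := norm_nonneg _
  have h4 : D * (4 * m / q) ≤ 2 := le_trans (mul_le_mul_of_nonneg_left hzn hD0) hn
  have h5 : D ≤ q / (2 * m) := by
    rw [le_div_iff₀ (by positivity)]
    have : D * (4 * m / q) * q ≤ 2 * q := mul_le_mul_of_nonneg_right h4 hq.le
    have h6 : D * (4 * m / q) * q = D * (4 * m) := by field_simp
    rw [h6] at this
    linarith
  have h7 : D ^ 2 ≤ q ^ 2 / 4 * (1 / m ^ 2) := by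
    have h8 : D ^ 2 ≤ ((q : ℝ) / (2 * m)) ^ 2 := pow_le_pow_left₀ hD0 h5 2
    refine h8.trans (le_of_eq ?_)
    field_simp
    ring
  unfold w
  rw [hD, div_le_iff₀ (by positivity)]
  have h9 : (q : ℝ) / (4 * H) * (1 / (a : ℝ) ^ 2 + 1 / ((q : ℝ) - a) ^ 2) * (q * H)
      = q ^ 2 / 4 * (1 / (a : ℝ) ^ 2 + 1 / ((q : ℝ) - a) ^ 2) := by
    field_simp
  rw [h9]
  exact h7.trans (mul_le_mul_of_nonneg_left hm2 (by positivity))

/-- Sum of `w_le`, `sum_(a > m) 1 / a^2 ≤ 1 / m`. -/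
theorem tail {q H m : ℕ} (hH : 1 ≤ H) (hm : 1 ≤ m) :
    ∑ a ∈ (range q).filter (fun a => m < a ∧ a + m < q), w q H a ≤ (q : ℝ) / (2 * H * m) := by
  have hH' : (0 : ℝ) < H := by exact_mod_cast hH
  have hm' : (0 : ℝ) < m := by exact_mod_cast hm
  have hq0 : (0 : ℝ) ≤ q := Nat.cast_nonneg q
  by_cases hmq : m ≤ q
  · have key : ∀ F : Finset ℕ, F ⊆ Ioc m q → ∑ b ∈ F, 1 / (b : ℝ) ^ 2 ≤ 1 / (m : ℝ) := by
      intro F hF
      have h1 : ∑ b ∈ F, 1 / (b : ℝ) ^ 2 ≤ ∑ b ∈ Ioc m q, 1 / (b : ℝ) ^ 2 :=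
        Finset.sum_le_sum_of_subset_of_nonneg hF fun i _ _ => by positivity
      have h2 : ∑ b ∈ Ioc m q, ((b : ℝ) ^ 2)⁻¹ ≤ (m : ℝ)⁻¹ - (q : ℝ)⁻¹ :=
        sum_Ioc_inv_sq_le_sub (by omega) hmq
      have h3 : ∑ b ∈ Ioc m q, 1 / (b : ℝ) ^ 2 = ∑ b ∈ Ioc m q, ((b : ℝ) ^ 2)⁻¹ :=
        Finset.sum_congr rfl fun b _ => one_div _
      have h4 : 0 ≤ (q : ℝ)⁻¹ := by positivity
      rw [one_div]
      linarith
    set F := (range q).filter (fun a => m < a ∧ a + m < q) with hF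
    have hmem : ∀ a ∈ F, a < q ∧ m < a ∧ a + m < q := by
      intro a ha
      rw [hF, Finset.mem_filter, Finset.mem_range] at ha
      exact ha
    have h1 : ∑ a ∈ F, 1 / (a : ℝ) ^ 2 ≤ 1 / (m : ℝ) := by
      refine key F fun a ha => ?_
      obtain ⟨h1, h2, h3⟩ := hmem a ha
      rw [Finset.mem_Ioc]
      omega
    have h2 : ∑ a ∈ F, 1 / ((q : ℝ) - a) ^ 2 ≤ 1 / (m : ℝ) := by
      have hinj : Set.InjOn (fun a : ℕ => q - a) (F : Set ℕ) := by
        intro a ha b hb hab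
        have h1 := hmem a ha
        have h2 := hmem b hb
        simp only at hab
        omega
      have h3 : ∑ b ∈ F.image (fun a : ℕ => q - a), 1 / (b : ℝ) ^ 2
          = ∑ a ∈ F, 1 / ((q : ℝ) - a) ^ 2 := by
        rw [Finset.sum_image hinj]
        refine Finset.sum_congr rfl fun a ha => ?_
        have h1 := hmem a ha
        rw [Nat.cast_sub h1.1.le]
      rw [← h3]
      refine key _ fun b hb => ?_
      rw [Finset.mem_image] at hb
      obtain ⟨a, ha, rfl⟩ := hb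
      have h1 := hmem a ha
      rw [Finset.mem_Ioc]
      omega
    calc ∑ a ∈ F, w q H a
        ≤ ∑ a ∈ F, (q : ℝ) / (4 * H) * (1 / (a : ℝ) ^ 2 + 1 / ((q : ℝ) - a) ^ 2) := by
          refine Finset.sum_le_sum fun a ha => ?_
          obtain ⟨h1, h2, h3⟩ := hmem a ha
          exact w_le hH (by omega) h1
      _ = (q : ℝ) / (4 * H) *
          (∑ a ∈ F, 1 / (a : ℝ) ^ 2 + ∑ a ∈ F, 1 / ((q : ℝ) - a) ^ 2) := by
          rw [← Finset.mul_sum, Finset.sum_add_distrib]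
      _ ≤ (q : ℝ) / (4 * H) * (1 / (m : ℝ) + 1 / (m : ℝ)) :=
          mul_le_mul_of_nonneg_left (add_le_add h1 h2) (by positivity)
      _ = (q : ℝ) / (2 * H * m) := by
          field_simp
          ring
  · have h0 : (range q).filter (fun a => m < a ∧ a + m < q) = ∅ := by
      rw [Finset.filter_eq_empty_iff]
      intro a ha
      rw [Finset.mem_range] at ha
      omega
    rw [h0, Finset.sum_empty]
    positivity

end CharCLT
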