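import Pool.Agent.Lib.MP_f2256b_nt.Fourier
import Pool.Agent.Lib.MP_f2256b_nt.Tail

/-! # Leaf: if the square of the character is one on `[1, 2 q / H]` the Fejer mean is large -/

set_option autoImplicit false

open ProbabilityTheory MeasureTheory Filter Topology Finset

namespace CharCLT

private theorem w_zero {q H : ℕ} (hq : 0 < q) (hH : 1 ≤ H) : w q H 0 = (H : ℝ) / q := by
  have hqr : (q : ℝ) ≠ 0 := by exact_mod_cast hq.ne'
  have hHr : (H : ℝ) ≠ 0 := by
    have : H ≠ 0 := by omega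
    exact_mod_cast this
  unfold w
  have h1 : ∑ j ∈ range H, Complex.exp (2 * Real.pi * Complex.I * (((0 : ℕ) : ℂ) * j / q)) =
      (H : ℂ) := by
    simp
  rw [h1, Complex.norm_natCast]
  field_simp

private theorem w_nonneg (q H a : ℕ) : 0 ≤ w q H a := by
  unfold w
  positivity

/-- Let `m = ⌊2 q / H⌋ ≥ 19`. The weights `w a` with `m < a`, `a + m < q` add up to at most
`q / (2 H m) ≤ 1 / (2 * 1.9)` (`tail`), `w 0 = H / q ≤ 1 / 10`, all others have `χ(a)^2 = 1`
(`χ(a)^2 = χ(q - a)^2`), the sum of all weights is `1` (`w_sum`): the real part of the sum is at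
least `1 - w 0 - 2 tail ≥ 1 - 0.1 - 0.53`. -/
theorem least {q H : ℕ} (hq : q.Prime) (hH : 1 ≤ H) (hHq : 10 * H ≤ q)
    (χ : DirichletCharacter ℂ q)
    (h : ∀ n : ℕ, 1 ≤ n → n < q → (n : ℝ) ≤ 2 * q / H → χ (n : ZMod q) ^ 2 = 1) :
    1 / 5 ≤ ‖∑ a ∈ range q, χ (a : ZMod q) ^ 2 * (w q H a : ℂ)‖ := by
  have hq0 : 0 < q := hq.pos
  have hqr : (0 : ℝ) < q := by exact_mod_cast hq0
  have hHr : (0 : ℝ) < H := by exact_mod_cast hH
  have hHq' : 10 * (H : ℝ) ≤ q := by exact_mod_cast hHq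
  obtain ⟨m, hm⟩ : ∃ m : ℕ, m = 2 * q / H := ⟨_, rfl⟩
  have hm1 : 1 ≤ m := by
    rw [hm]
    exact (Nat.le_div_iff_mul_le hH).2 (by omega)
  have hmr : (0 : ℝ) < m := by exact_mod_cast hm1
  have hmle : (m : ℝ) ≤ 2 * q / H := by
    have h1 := Nat.cast_div_le (α := ℝ) (m := 2 * q) (n := H)
    rw [← hm] at h1
    push_cast at h1
    exact h1
  have hmgt : 2 * (q : ℝ) - H < H * m := by
    have h1 := Nat.lt_mul_div_succ (2 * q) hH
    rw [← hm] at h1
    have h2 : 2 * (q : ℝ) < H * (m + 1) := by exact_mod_cast h1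
    linarith
  have hT := tail (q := q) hH hm1
  have hT2 : (q : ℝ) / (2 * H * m) ≤ 10 / 38 := by
    rw [div_le_div_iff₀ (by positivity) (by norm_num)]
    nlinarith
  have hw0 := w_zero hq0 hH
  have hw0' : w q H 0 ≤ 1 / 10 := by
    rw [hw0, div_le_div_iff₀ hqr (by norm_num)]
    linarith
  have hsq : ∀ a : ℕ, 1 ≤ a → a < q → ¬ (m < a ∧ a + m < q) → χ (a : ZMod q) ^ 2 = 1 := by
    intro a ha haq hn
    by_cases ham : a ≤ m
    · exact h a ha haq (le_trans (by exact_mod_cast ham) hmle)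
    · have h1 : q ≤ a + m := by
        by_contra hc
        exact hn ⟨by omega, by omega⟩
      obtain ⟨n, hn'⟩ : ∃ n : ℕ, n + a = q := ⟨q - a, by omega⟩
      have hnm : n ≤ m := by omega
      have h2 := h n (by omega) (by omega) (le_trans (by exact_mod_cast hnm) hmle)
      have h3 : ((a : ℕ) : ZMod q) = - (n : ZMod q) := by
        have h4 : ((n + a : ℕ) : ZMod q) = 0 := by
          rw [hn']
          exact ZMod.natCast_self q
        push_cast at h4
        exact eq_neg_of_add_eq_zero_right h4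
      rw [h3, ← map_pow, neg_sq, map_pow, h2]
  have key : ∀ a ∈ range q, ‖(1 - χ (a : ZMod q) ^ 2) * (w q H a : ℂ)‖ ≤
      (if a = 0 then w q H a else 0) + (if m < a ∧ a + m < q then 2 * w q H a else 0) := by
    intro a ha
    have haq : a < q := mem_range.1 ha
    have hw := w_nonneg q H a
    rw [norm_mul, Complex.norm_real, Real.norm_eq_abs, abs_of_nonneg hw]
    by_cases ha0 : a = 0
    · subst ha0
      have : Nontrivial (ZMod q) := by
        have : Fact (1 < q) := ⟨hq.one_lt⟩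
        infer_instance
      have hz : χ (((0 : ℕ) : ZMod q)) = 0 := by
        rw [Nat.cast_zero]
        exact χ.map_nonunit not_isUnit_zero
      rw [hz]
      simp
    · by_cases hab : m < a ∧ a + m < q
      · rw [if_neg ha0, if_pos hab, zero_add]
        refine mul_le_mul_of_nonneg_right ?_ hw
        have h1 : ‖χ (a : ZMod q)‖ ≤ 1 := DirichletCharacter.norm_le_one χ _
        calc ‖1 - χ (a : ZMod q) ^ 2‖ ≤ ‖(1 : ℂ)‖ + ‖χ (a : ZMod q) ^ 2‖ := norm_sub_le _ _
          _ ≤ 1 + 1 := by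
            rw [norm_one, norm_pow]
            have := pow_le_one₀ (n := 2) (norm_nonneg (χ (a : ZMod q))) h1
            linarith
          _ = 2 := by norm_num
      · rw [hsq a (by omega) haq hab, sub_self, norm_zero, zero_mul, if_neg ha0, if_neg hab]
        norm_num
  have h1 : ∑ a ∈ range q, (w q H a : ℂ) = 1 := by
    rw [← Complex.ofReal_sum, w_sum hH (by omega), Complex.ofReal_one]
  have h2 : ∑ a ∈ range q, χ (a : ZMod q) ^ 2 * (w q H a : ℂ) =
      1 - ∑ a ∈ range q, (1 - χ (a : ZMod q) ^ 2) * (w q H a : ℂ) := by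
    have h5 : ∑ a ∈ range q, χ (a : ZMod q) ^ 2 * (w q H a : ℂ) +
        ∑ a ∈ range q, (1 - χ (a : ZMod q) ^ 2) * (w q H a : ℂ) =
        ∑ a ∈ range q, (w q H a : ℂ) := by
      rw [← Finset.sum_add_distrib]
      exact Finset.sum_congr rfl fun a _ => by ring
    rw [h1] at h5
    exact eq_sub_of_add_eq h5
  have h3 : ‖∑ a ∈ range q, (1 - χ (a : ZMod q) ^ 2) * (w q H a : ℂ)‖ ≤ 1 / 10 + 2 * (10 / 38) := by
    calc ‖∑ a ∈ range q, (1 - χ (a : ZMod q) ^ 2) * (w q H a : ℂ)‖
        ≤ ∑ a ∈ range q, ‖(1 - χ (a : ZMod q) ^ 2) * (w q H a : ℂ)‖ := norm_sum_le _ _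
      _ ≤ ∑ a ∈ range q, ((if a = 0 then w q H a else 0) +
          (if m < a ∧ a + m < q then 2 * w q H a else 0)) := Finset.sum_le_sum key
      _ = w q H 0 + 2 * ∑ a ∈ (range q).filter (fun a => m < a ∧ a + m < q), w q H a := by
        rw [Finset.sum_add_distrib, Finset.sum_ite_eq', if_pos (mem_range.2 hq0),
          ← Finset.sum_filter, Finset.mul_sum]
      _ ≤ 1 / 10 + 2 * (10 / 38) := by linarith
  have h4 := norm_sub_norm_le (1 : ℂ) (∑ a ∈ range q, (1 - χ (a : ZMod q) ^ 2) * (w q H a : ℂ))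
  rw [norm_one, ← h2] at h4
  linarith

end CharCLT
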