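import Pool.Agent.Lib.MP_f2256b_nt.Defs

/-! # Leaf: the exact identity for the pseudo-variance -/

set_option autoImplicit false

open ProbabilityTheory MeasureTheory Filter Topology Finset

namespace CharCLT

section
variable {q : ℕ} [Fact q.Prime]

private theorem ps_range (f : ZMod q → ℂ) :
    ∑ a ∈ range q, f (a : ZMod q) = ∑ x : ZMod q, f x := by
  have hq : 0 < q := (Fact.out : q.Prime).pos
  refine Finset.sum_bij' (fun a _ => (a : ZMod q)) (fun x _ => x.val) ?_ ?_ ?_ ?_ ?_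
  · intro a _
    exact Finset.mem_univ _
  · intro x _
    exact Finset.mem_range.2 (ZMod.val_lt x)
  · intro a ha
    exact ZMod.val_cast_of_lt (Finset.mem_range.1 ha)
  · intro x _
    exact ZMod.natCast_zmod_val x
  · intro a _
    rfl

private theorem ps_gauss (χ : DirichletCharacter ℂ q) (hχ : χ ≠ 1) (n : ZMod q) :
    ∑ a : ZMod q, χ⁻¹ a * ZMod.stdAddChar (a * n) =
      χ n * gaussSum χ⁻¹ (ZMod.stdAddChar (N := q)) := by
  by_cases hn : n = 0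
  · subst hn
    have h1 : χ⁻¹ ≠ 1 := fun h => hχ (inv_eq_one.1 h)
    simp only [mul_zero, AddChar.map_zero_eq_one, mul_one]
    rw [MulChar.sum_eq_zero_of_ne_one h1, MulChar.map_zero, zero_mul]
  · have h := gaussSum_mulShift_eq χ⁻¹ (ZMod.stdAddChar (N := q)) (Units.mk0 n hn)
    rw [inv_inv, Units.val_mk0] at h
    rw [← h, gaussSum]
    refine Finset.sum_congr rfl fun a _ => ?_
    rw [AddChar.mulShift_apply, mul_comm a n]

private theorem ps_parseval (f : ZMod q → ℂ) :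
    ∑ x : ZMod q, (∑ a : ZMod q, f a * ZMod.stdAddChar (a * x)) ^ 2 =
      q * ∑ a : ZMod q, f a * f (-a) := by
  classical
  have h1 : ∀ x : ZMod q, (∑ a : ZMod q, f a * ZMod.stdAddChar (a * x)) ^ 2 =
      ∑ a : ZMod q, ∑ b : ZMod q, f a * f b * ZMod.stdAddChar (x * (a + b)) := by
    intro x
    rw [pow_two, Finset.sum_mul_sum]
    refine Finset.sum_congr rfl fun a _ => Finset.sum_congr rfl fun b _ => ?_
    rw [mul_add, AddChar.map_add_eq_mul, mul_comm x a, mul_comm x b]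
    ring
  rw [Finset.sum_congr rfl fun x _ => h1 x, Finset.sum_comm, Finset.mul_sum]
  refine Finset.sum_congr rfl fun a _ => ?_
  rw [Finset.sum_comm]
  have h2 : ∀ b : ZMod q, ∑ x : ZMod q, f a * f b * ZMod.stdAddChar (x * (a + b)) =
      if b = -a then (q : ℂ) * (f a * f (-a)) else 0 := by
    intro b
    rw [← Finset.mul_sum, AddChar.sum_mulShift _ (ZMod.isPrimitive_stdAddChar q)]
    by_cases hb : b = -a
    · subst hb
      rw [if_pos (by ring), if_pos rfl, ZMod.card]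
      ring
    · rw [if_neg hb, if_neg, Nat.cast_zero, mul_zero]
      intro h0
      exact hb (by rw [eq_neg_iff_add_eq_zero, add_comm]; exact h0)
  rw [Finset.sum_congr rfl fun b _ => h2 b, Finset.sum_ite_eq' Finset.univ (-a),
    if_pos (Finset.mem_univ _)]

private theorem ps_S (χ : DirichletCharacter ℂ q) (H X : ℕ) :
    S χ H X = ∑ j ∈ range H, χ ((X : ZMod q) + (1 + (j : ZMod q))) := by
  unfold S
  have h1 : Ioc X (X + H) = Ico (X + 1) (X + H + 1) := by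
    ext n
    rw [Finset.mem_Ioc, Finset.mem_Ico]
    omega
  rw [h1, Finset.sum_Ico_eq_sum_range]
  have h2 : X + H + 1 - (X + 1) = H := by omega
  rw [h2]
  refine Finset.sum_congr rfl fun j _ => ?_
  congr 1
  push_cast
  ring

private theorem ps_mulTau (χ : DirichletCharacter ℂ q) (hχ : χ ≠ 1) (H : ℕ) (x : ZMod q) :
    (∑ j ∈ range H, χ (x + (1 + (j : ZMod q)))) * gaussSum χ⁻¹ (ZMod.stdAddChar (N := q)) =
      ∑ a : ZMod q, (χ⁻¹ a * ∑ j ∈ range H, ZMod.stdAddChar (a * (1 + (j : ZMod q)))) *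
        ZMod.stdAddChar (a * x) := by
  rw [Finset.sum_mul]
  have h1 : ∀ j ∈ range H, χ (x + (1 + (j : ZMod q))) * gaussSum χ⁻¹ (ZMod.stdAddChar (N := q)) =
      ∑ a : ZMod q, χ⁻¹ a * (ZMod.stdAddChar (a * x) *
        ZMod.stdAddChar (a * (1 + (j : ZMod q)))) := by
    intro j _
    rw [← ps_gauss χ hχ]
    refine Finset.sum_congr rfl fun a _ => ?_
    rw [mul_add a x, AddChar.map_add_eq_mul]
  rw [Finset.sum_congr rfl h1, Finset.sum_comm]
  refine Finset.sum_congr rfl fun a _ => ?_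
  rw [Finset.mul_sum, Finset.sum_mul]
  refine Finset.sum_congr rfl fun j _ => ?_
  ring

private theorem ps_E (H : ℕ) (a : ZMod q) :
    (∑ j ∈ range H, ZMod.stdAddChar (a * (1 + (j : ZMod q)))) *
      (∑ j ∈ range H, ZMod.stdAddChar ((-a) * (1 + (j : ZMod q)))) =
      ((‖∑ j ∈ range H, (ZMod.stdAddChar (a * (j : ZMod q)) : ℂ)‖ ^ 2 : ℝ) : ℂ) := by
  have h1 : (∑ j ∈ range H, (ZMod.stdAddChar ((-a) * (1 + (j : ZMod q))) : ℂ)) =
      (starRingEnd ℂ) (∑ j ∈ range H, (ZMod.stdAddChar (a * (1 + (j : ZMod q))) : ℂ)) := by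
    rw [map_sum]
    refine Finset.sum_congr rfl fun j _ => ?_
    rw [neg_mul, AddChar.map_neg_eq_conj]
  have h2 : (∑ j ∈ range H, (ZMod.stdAddChar (a * (1 + (j : ZMod q))) : ℂ)) =
      ZMod.stdAddChar a * ∑ j ∈ range H, (ZMod.stdAddChar (a * (j : ZMod q)) : ℂ) := by
    rw [Finset.mul_sum]
    refine Finset.sum_congr rfl fun j _ => ?_
    rw [mul_add, mul_one, AddChar.map_add_eq_mul]
  rw [h1, Complex.mul_conj, Complex.normSq_eq_norm_sq, h2, norm_mul, AddChar.norm_apply, one_mul]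

private theorem ps_w (H a : ℕ) (hH : 1 ≤ H) :
    ((q : ℂ) * H) * (w q H a : ℂ) =
      ((‖∑ j ∈ range H, (ZMod.stdAddChar ((a : ZMod q) * (j : ZMod q)) : ℂ)‖ ^ 2 : ℝ) : ℂ) := by
  have hq : (q : ℝ) ≠ 0 := by exact_mod_cast (Fact.out : q.Prime).ne_zero
  have hH0 : (H : ℝ) ≠ 0 := by
    have : H ≠ 0 := by omega
    exact_mod_cast this
  have h1 : ∀ j ∈ range H, (ZMod.stdAddChar ((a : ZMod q) * (j : ZMod q)) : ℂ) =
      Complex.exp (2 * Real.pi * Complex.I * (a * j / q)) := by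
    intro j _
    have h2 : ((a : ZMod q) * (j : ZMod q)) = (((a * j : ℕ) : ℤ) : ZMod q) := by push_cast; rfl
    rw [h2, ZMod.stdAddChar_coe]
    congr 1
    push_cast
    ring
  rw [Finset.sum_congr rfl h1]
  unfold w
  rw [show ((q : ℂ) * H) = (((q : ℝ) * (H : ℝ) : ℝ) : ℂ) by push_cast; rfl, ← Complex.ofReal_mul,
    mul_div_cancel₀ _ (mul_ne_zero hq hH0)]

private theorem ps_tau (χ : DirichletCharacter ℂ q) (hχ : χ ≠ 1) :
    ‖gaussSum χ⁻¹ (ZMod.stdAddChar (N := q))‖ ^ 2 = q := by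
  have h1 : χ⁻¹ ≠ 1 := fun h => hχ (inv_eq_one.1 h)
  have h2 := gaussSum_mul_gaussSum_eq_card h1 (ZMod.isPrimitive_stdAddChar q)
  rw [← star_gaussSum_eq, ZMod.card] at h2
  have h3 : gaussSum χ⁻¹ (ZMod.stdAddChar (N := q)) *
      (starRingEnd ℂ) (gaussSum χ⁻¹ (ZMod.stdAddChar (N := q))) = q := h2
  rw [Complex.mul_conj, Complex.normSq_eq_norm_sq] at h3
  exact_mod_cast h3

end

/-- `|sum_X S(X)^2| = |sum_a χ(a)^2 |D(a)|^2|`. Fourier transform: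
`sum_X S(X) e(a X / q) = (sum_(j = 1..H) e(- a j / q)) * χ⁻¹(a) * τ`, `|τ|^2 = q`;
`q sum_X S(X)^2 = sum_a S^(a) S^(-a) = χ(-1) τ^2 sum_a χ⁻¹(a)^2 |D(a)|^2`; complex conjugation. -/
theorem pseudo {q H : ℕ} (hq : q.Prime) (hH : 1 ≤ H) (χ : DirichletCharacter ℂ q)
    (hχ : χ ≠ 1) : ‖∑ X ∈ range q, S χ H X ^ 2‖ =
      q * H * ‖∑ a ∈ range q, χ (a : ZMod q) ^ 2 * (w q H a : ℂ)‖ := by
  haveI : Fact q.Prime := ⟨hq⟩
  have hq0 : (0 : ℝ) < q := by exact_mod_cast hq.pos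
  set τ := gaussSum χ⁻¹ (ZMod.stdAddChar (N := q)) with hτ
  set N : ZMod q → ℝ := fun a => ‖∑ j ∈ range H, (ZMod.stdAddChar (a * (j : ZMod q)) : ℂ)‖ ^ 2
    with hN
  have h1 : ∑ X ∈ range q, S χ H X ^ 2 =
      ∑ x : ZMod q, (∑ j ∈ range H, χ (x + (1 + (j : ZMod q)))) ^ 2 := by
    rw [← ps_range (fun x : ZMod q => (∑ j ∈ range H, χ (x + (1 + (j : ZMod q)))) ^ 2)]
    refine Finset.sum_congr rfl fun X _ => ?_
    rw [ps_S]
  have h2 : (∑ X ∈ range q, S χ H X ^ 2) * τ ^ 2 =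
      q * ∑ a : ZMod q, χ⁻¹ (-1) * (χ⁻¹ a ^ 2 * (N a : ℂ)) := by
    rw [h1, Finset.sum_mul]
    have h3 : ∀ x : ZMod q, (∑ j ∈ range H, χ (x + (1 + (j : ZMod q)))) ^ 2 * τ ^ 2 =
        (∑ a : ZMod q, (χ⁻¹ a * ∑ j ∈ range H, ZMod.stdAddChar (a * (1 + (j : ZMod q)))) *
          ZMod.stdAddChar (a * x)) ^ 2 := by
      intro x
      rw [← ps_mulTau χ hχ, mul_pow]
    rw [Finset.sum_congr rfl fun x _ => h3 x, ps_parseval]
    congr 1
    refine Finset.sum_congr rfl fun a _ => ?_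
    have h4 := ps_E (q := q) H a
    have h5 : χ⁻¹ (-a) = χ⁻¹ (-1) * χ⁻¹ a := by
      rw [← map_mul, neg_one_mul]
    rw [h5]
    calc χ⁻¹ a * (∑ j ∈ range H, ZMod.stdAddChar (a * (1 + (j : ZMod q)))) *
          (χ⁻¹ (-1) * χ⁻¹ a * ∑ j ∈ range H, ZMod.stdAddChar (-a * (1 + (j : ZMod q))))
        = χ⁻¹ (-1) * (χ⁻¹ a ^ 2 * ((∑ j ∈ range H, ZMod.stdAddChar (a * (1 + (j : ZMod q)))) *
          ∑ j ∈ range H, ZMod.stdAddChar (-a * (1 + (j : ZMod q))))) := by ring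
      _ = _ := by rw [h4]
  have h6 : ‖χ⁻¹ (-1 : ZMod q)‖ = 1 := by
    have h7 : χ⁻¹ (-1 : ZMod q) * χ⁻¹ (-1 : ZMod q) = 1 := by
      rw [← map_mul, neg_one_mul, neg_neg, map_one]
    have h8 : ‖χ⁻¹ (-1 : ZMod q)‖ * ‖χ⁻¹ (-1 : ZMod q)‖ = 1 := by
      rw [← norm_mul, h7, norm_one]
    nlinarith [norm_nonneg (χ⁻¹ (-1 : ZMod q))]
  have h9 : ‖∑ X ∈ range q, S χ H X ^ 2‖ * q = q * ‖∑ a : ZMod q, χ⁻¹ a ^ 2 * (N a : ℂ)‖ := by
    have h10 := congrArg norm h2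
    rw [norm_mul, norm_pow, ps_tau χ hχ, norm_mul, ← Finset.mul_sum, norm_mul, h6, one_mul,
      Complex.norm_natCast] at h10
    exact h10
  have h11 : ‖∑ X ∈ range q, S χ H X ^ 2‖ = ‖∑ a : ZMod q, χ⁻¹ a ^ 2 * (N a : ℂ)‖ := by
    have h12 : ‖∑ X ∈ range q, S χ H X ^ 2‖ * q =
        ‖∑ a : ZMod q, χ⁻¹ a ^ 2 * (N a : ℂ)‖ * q := by rw [h9, mul_comm]
    exact mul_right_cancel₀ hq0.ne' h12
  have h13 : ‖∑ a : ZMod q, χ⁻¹ a ^ 2 * (N a : ℂ)‖ = ‖∑ a : ZMod q, χ a ^ 2 * (N a : ℂ)‖ := by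
    rw [← Complex.norm_conj (∑ a : ZMod q, χ a ^ 2 * (N a : ℂ)), map_sum]
    congr 1
    refine Finset.sum_congr rfl fun a _ => ?_
    rw [map_mul, map_pow, Complex.conj_ofReal, starRingEnd_apply, MulChar.star_apply']
  have h14 : (∑ a : ZMod q, χ a ^ 2 * (N a : ℂ)) =
      ((q : ℂ) * H) * ∑ a ∈ range q, χ (a : ZMod q) ^ 2 * (w q H a : ℂ) := by
    rw [← ps_range (fun a : ZMod q => χ a ^ 2 * (N a : ℂ)), Finset.mul_sum]
    refine Finset.sum_congr rfl fun a _ => ?_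
    have h15 := ps_w (q := q) H a hH
    show χ (a : ZMod q) ^ 2 * (N (a : ZMod q) : ℂ) = _
    rw [hN]
    show χ (a : ZMod q) ^ 2 *
      ((‖∑ j ∈ range H, (ZMod.stdAddChar ((a : ZMod q) * (j : ZMod q)) : ℂ)‖ ^ 2 : ℝ) : ℂ) = _
    rw [← h15]
    ring
  rw [h11, h13, h14, norm_mul, norm_mul, Complex.norm_natCast, Complex.norm_natCast]

end CharCLT
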