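import Pool.Agent.Lib.MP_f2256b_nt.Moment
import Pool.Agent.Lib.MP_f2256b_nt.Pseudo
import Pool.Agent.Lib.MP_f2256b_nt.Least
import Pool.Agent.Lib.MP_f2256b_nt.Bound

/-! # MP_f2256b_nt: assembly -/

set_option autoImplicit false

open ProbabilityTheory MeasureTheory Filter Topology Finset

namespace CharCLT

theorem ne_one {q : ℕ} {χ : DirichletCharacter ℂ q} (h : χ ^ 2 ≠ 1) : χ ≠ 1 := by
  rintro rfl
  exact h (one_pow 2)

theorem A_norm {q H : ℕ} (hq : q.Prime) (hH : 1 ≤ H) (hHq : H ≤ q) (χ : DirichletCharacter ℂ q)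
    (hχ : χ ≠ 1) : A χ H (fun z => ‖z‖ ^ 2) = 1 - H / q := by
  have hq0 : (q : ℝ) ≠ 0 := by exact_mod_cast hq.ne_zero
  have hH0 : (H : ℝ) ≠ 0 := by
    have : H ≠ 0 := by omega
    exact_mod_cast this
  have h1 : ∀ X, ‖S χ H X / ((√(H : ℝ) : ℝ) : ℂ)‖ ^ 2 = ‖S χ H X‖ ^ 2 / H := by
    intro X
    rw [norm_div, div_pow, Complex.norm_real, Real.norm_eq_abs, sq_abs,
      Real.sq_sqrt (Nat.cast_nonneg H)]
  unfold A
  simp only [h1]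
  rw [← Finset.sum_div, second hq hH hHq χ hχ]
  field_simp

theorem A_pseudo {q H : ℕ} (hq : q.Prime) (hH : 1 ≤ H) (χ : DirichletCharacter ℂ q) (hχ : χ ≠ 1) :
    ‖(1 / (q : ℂ)) * ∑ X ∈ range q, (S χ H X / ((√(H : ℝ) : ℝ) : ℂ)) ^ 2‖ =
      ‖∑ a ∈ range q, χ (a : ZMod q) ^ 2 * (w q H a : ℂ)‖ := by
  have hq0 : (q : ℝ) ≠ 0 := by exact_mod_cast hq.ne_zero
  have hH0 : (H : ℝ) ≠ 0 := by
    have : H ≠ 0 := by omega
    exact_mod_cast this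
  have h1 : ∀ X, (S χ H X / ((√(H : ℝ) : ℝ) : ℂ)) ^ 2 = S χ H X ^ 2 / H := by
    intro X
    rw [div_pow, ← Complex.ofReal_pow, Real.sq_sqrt (Nat.cast_nonneg H)]
    simp
  simp only [h1]
  rw [← Finset.sum_div, norm_mul, norm_div, norm_div, pseudo hq hH χ hχ]
  simp only [norm_one, Complex.norm_natCast]
  field_simp

theorem A_re {q H : ℕ} (χ : DirichletCharacter ℂ q) :
    A χ H (fun z => (z ^ 2).re) =
      ((1 / (q : ℂ)) * ∑ X ∈ range q, (S χ H X / ((√(H : ℝ) : ℝ) : ℂ)) ^ 2).re := by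
  unfold A
  rw [show (1 / (q : ℂ)) = ((1 / (q : ℝ) : ℝ) : ℂ) by push_cast; rfl, Complex.re_ofReal_mul,
    Complex.re_sum]

theorem A_im {q H : ℕ} (χ : DirichletCharacter ℂ q) :
    A χ H (fun z => (z ^ 2).im) =
      ((1 / (q : ℂ)) * ∑ X ∈ range q, (S χ H X / ((√(H : ℝ) : ℝ) : ℂ)) ^ 2).im := by
  unfold A
  rw [show (1 / (q : ℂ)) = ((1 / (q : ℝ) : ℝ) : ℂ) by push_cast; rfl, Complex.im_ofReal_mul,
    Complex.im_sum]

/-- The central limit theorem forces `H k = o(q k)`. -/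
theorem clt_small {q : ℕ → ℕ} {χ : (k : ℕ) → DirichletCharacter ℂ (q k)} {H : ℕ → ℕ}
    (hq : ∀ k, (q k).Prime) (hχ : ∀ k, χ k ^ 2 ≠ 1) (hH : ∀ k, 1 ≤ H k ∧ H k ≤ q k)
    (hc : CLT q χ H) : Tendsto (fun k => (H k : ℝ) / q k) atTop (𝓝 0) := by
  rw [Metric.tendsto_nhds]
  intro ε hε
  obtain ⟨T, hT⟩ := (G_norm.eventually (lt_mem_nhds (show 1 - ε < 1 by linarith))).exists
  have hT0 : (0 : ℝ) < (T : ℝ) + 1 := by positivity
  set t : ℝ := (T : ℝ) + 1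
  have hden : ∀ z : ℂ, 1 ≤ 1 + ‖z‖ ^ 2 / t := fun z => by
    have : 0 ≤ ‖z‖ ^ 2 / t := by positivity
    linarith
  have hcd : Continuous fun z : ℂ => 1 + ‖z‖ ^ 2 / t := by fun_prop
  have hne : ∀ z : ℂ, 1 + ‖z‖ ^ 2 / t ≠ 0 := fun z => by linarith [hden z]
  have hb : ∀ z : ℂ, ‖z‖ ^ 2 / (1 + ‖z‖ ^ 2 / t) ≤ t := fun z => by
    rw [div_le_iff₀ (by linarith [hden z])]
    have : t * (1 + ‖z‖ ^ 2 / t) = t + ‖z‖ ^ 2 := by field_simp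
    rw [this]; linarith
  have h3 := hc (fun z => ‖z‖ ^ 2 / (1 + ‖z‖ ^ 2 / t))
    ((by fun_prop : Continuous fun z : ℂ => ‖z‖ ^ 2).div hcd hne) ⟨t, fun z => by
    rw [abs_of_nonneg (div_nonneg (by positivity) (by linarith [hden z]))]
    exact hb z⟩
  filter_upwards [h3.eventually (lt_mem_nhds hT)] with k hk
  have h4 : A (χ k) (H k) (fun z => ‖z‖ ^ 2 / (1 + ‖z‖ ^ 2 / t)) ≤
      A (χ k) (H k) (fun z => ‖z‖ ^ 2) := by
    unfold A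
    gcongr with X hX
    exact div_le_self (by positivity) (hden _)
  rw [A_norm (hq k) (hH k).1 (hH k).2 (χ k) (ne_one (hχ k))] at h4
  have h5 : 0 ≤ (H k : ℝ) / q k := by positivity
  rw [Real.dist_eq, sub_zero, abs_of_nonneg h5]
  linarith

theorem clt_mean {q : ℕ → ℕ} {χ : (k : ℕ) → DirichletCharacter ℂ (q k)} {H : ℕ → ℕ}
    (hq : ∀ k, (q k).Prime) (hχ : ∀ k, χ k ^ 2 ≠ 1) (hH : ∀ k, 1 ≤ H k ∧ H k ≤ q k)
    (hHq : Tendsto (fun k => (H k : ℝ) / q k) atTop (𝓝 0)) (hc : CLT q χ H) :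
    Tendsto (fun k => ∑ a ∈ range (q k), χ k (a : ZMod (q k)) ^ 2 * (w (q k) (H k) a : ℂ))
      atTop (𝓝 0) := by
  have h2 : Tendsto (fun k => A (χ k) (H k) (fun z => ‖z‖ ^ 2)) atTop (𝓝 1) := by
    have : (fun k => A (χ k) (H k) (fun z => ‖z‖ ^ 2)) = fun k => 1 - (H k : ℝ) / q k := by
      funext k
      exact A_norm (hq k) (hH k).1 (hH k).2 (χ k) (ne_one (hχ k))
    rw [this]
    simpa using hHq.const_sub 1
  obtain ⟨hr, hi⟩ := moment hc h2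
  rw [tendsto_zero_iff_norm_tendsto_zero]
  have h3 : ∀ k, ‖∑ a ∈ range (q k), χ k (a : ZMod (q k)) ^ 2 * (w (q k) (H k) a : ℂ)‖ =
      √(A (χ k) (H k) (fun z => (z ^ 2).re) ^ 2 + A (χ k) (H k) (fun z => (z ^ 2).im) ^ 2) := by
    intro k
    rw [← A_pseudo (hq k) (hH k).1 (χ k) (ne_one (hχ k)), A_re, A_im, Complex.norm_def,
      Complex.normSq_apply]
    congr 1
    ring
  simp only [h3]
  have h4 := ((hr.pow 2).add (hi.pow 2)).sqrt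
  simpa using h4

theorem clt_least {q : ℕ → ℕ} {χ : (k : ℕ) → DirichletCharacter ℂ (q k)} {H : ℕ → ℕ}
    (hq : ∀ k, (q k).Prime) (hχ : ∀ k, χ k ^ 2 ≠ 1) (hH : ∀ k, 1 ≤ H k ∧ H k ≤ q k)
    (hHq : Tendsto (fun k => (H k : ℝ) / q k) atTop (𝓝 0)) (hc : CLT q χ H) :
    ∀ᶠ k in atTop, ∃ n : ℕ, 1 ≤ n ∧ n < q k ∧ (n : ℝ) ≤ 2 * q k / H k ∧
      χ k (n : ZMod (q k)) ^ 2 ≠ 1 := by
  have h1 := (tendsto_zero_iff_norm_tendsto_zero.1 (clt_mean hq hχ hH hHq hc)).eventually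
    (gt_mem_nhds (show (0 : ℝ) < 1 / 5 by norm_num))
  have h2 := hHq.eventually (gt_mem_nhds (show (0 : ℝ) < 1 / 10 by norm_num))
  filter_upwards [h1, h2] with k hk1 hk2
  by_contra hcon
  push Not at hcon
  have hq0 : (0 : ℝ) < q k := by exact_mod_cast (hq k).pos
  have h3 : 10 * H k ≤ q k := by
    rw [div_lt_iff₀ hq0] at hk2
    have : (10 : ℝ) * H k ≤ q k := by linarith
    exact_mod_cast this
  have h4 := least (hq k) (hH k).1 h3 (χ k) fun n hn hnq hn2 => hcon n hn hnq hn2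
  linarith

theorem ratio {q H : ℕ → ℕ} (hq : ∀ k, (q k).Prime) (hH : ∀ k, 1 ≤ H k ∧ H k ≤ q k)
    (hqt : Tendsto (fun k => (q k : ℝ)) atTop atTop)
    (h : Tendsto (fun k => Real.log ((q k : ℝ) / (H k : ℝ)) / Real.log (Real.log (q k : ℝ)))
      atTop atTop) : Tendsto (fun k => (H k : ℝ) / q k) atTop (𝓝 0) := by
  have hl : Tendsto (fun k => Real.log (Real.log (q k : ℝ))) atTop atTop :=
    Real.tendsto_log_atTop.comp (Real.tendsto_log_atTop.comp hqt)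
  have h1 : Tendsto (fun k => Real.log ((q k : ℝ) / (H k : ℝ))) atTop atTop := by
    refine Tendsto.congr' ?_ (h.atTop_mul_atTop₀ hl)
    filter_upwards [hl.eventually_gt_atTop 0] with k hk
    field_simp
  have h2 : Tendsto (fun k => (q k : ℝ) / (H k : ℝ)) atTop atTop := by
    refine Tendsto.congr (fun k => Real.exp_log ?_) (Real.tendsto_exp_atTop.comp h1)
    have h3 : (0 : ℝ) < q k := by exact_mod_cast (hq k).pos
    have h4 : (0 : ℝ) < H k := by exact_mod_cast (hH k).1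
    positivity
  refine Tendsto.congr (fun k => ?_) h2.inv_tendsto_atTop
  simp

theorem main :
    (∀ q H : ℕ, q.Prime → 1 ≤ H → H ≤ q → ∀ χ : DirichletCharacter ℂ q, χ ≠ 1 →
      ∑ a ∈ range q, w q H a = 1 ∧ A χ H (fun z => ‖z‖ ^ 2) = 1 - H / q ∧
      ‖(1 / (q : ℂ)) * ∑ X ∈ range q, (S χ H X / ((√(H : ℝ) : ℝ) : ℂ)) ^ 2‖ =
        ‖∑ a ∈ range q, χ (a : ZMod q) ^ 2 * (w q H a : ℂ)‖) ∧
    (∀ (q : ℕ → ℕ) (χ : (k : ℕ) → DirichletCharacter ℂ (q k)) (H : ℕ → ℕ),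
      (∀ k, (q k).Prime) → (∀ k, χ k ^ 2 ≠ 1) → (∀ k, 1 ≤ H k ∧ H k ≤ q k) → CLT q χ H →
      Tendsto (fun k => (H k : ℝ) / q k) atTop (𝓝 0) ∧
      Tendsto (fun k => ∑ a ∈ range (q k), χ k (a : ZMod (q k)) ^ 2 * (w (q k) (H k) a : ℂ))
        atTop (𝓝 0) ∧
      ∀ᶠ k in atTop, ∃ n : ℕ, 1 ≤ n ∧ n < q k ∧ (n : ℝ) ≤ 2 * q k / H k ∧
        χ k (n : ZMod (q k)) ^ 2 ≠ 1) ∧
    (Q1b → ∃ C : ℕ, ∀ q : ℕ, q.Prime → ∀ χ : DirichletCharacter ℂ q, χ ^ 2 ≠ 1 →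
      ∃ n : ℕ, 1 ≤ n ∧ n < q ∧ (n : ℝ) ≤ Real.log q ^ C ∧ χ (n : ZMod q) ^ 2 ≠ 1) := by
  refine ⟨fun q H hq hH hHq χ hχ => ⟨w_sum hH hHq, A_norm hq hH hHq χ hχ, A_pseudo hq hH χ hχ⟩,
    fun q χ H hq hχ hH hc => ⟨clt_small hq hχ hH hc, clt_mean hq hχ hH (clt_small hq hχ hH hc) hc,
      clt_least hq hχ hH (clt_small hq hχ hH hc) hc⟩,
    fun hQ => bound fun q χ H hq hχ hH hHt hqt hlt => ?_⟩
  exact clt_least hq hχ hH (ratio hq hH hqt hlt) (hQ q χ H hq hχ hH hHt hqt hlt)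

end CharCLT
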