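import Pool.Agent.Lib.MP_f2256b_nt.Gauss

/-! # Leaf: convergence of the pseudo-variance from the central limit theorem -/

set_option autoImplicit false

open ProbabilityTheory MeasureTheory Filter Topology Finset

namespace CharCLT

private theorem A_sub {q : ℕ} (χ : DirichletCharacter ℂ q) (H : ℕ) (f g : ℂ → ℝ) :
    A χ H (fun z => f z - g z) = A χ H f - A χ H g := by
  unfold A
  rw [Finset.sum_sub_distrib, mul_sub]

private theorem A_mono {q : ℕ} (χ : DirichletCharacter ℂ q) (H : ℕ) {f g : ℂ → ℝ}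
    (h : ∀ z, f z ≤ g z) : A χ H f ≤ A χ H g := by
  unfold A
  exact mul_le_mul_of_nonneg_left (Finset.sum_le_sum fun i _ => h _) (by positivity)

private theorem A_abs {q : ℕ} (χ : DirichletCharacter ℂ q) (H : ℕ) (f : ℂ → ℝ) :
    |A χ H f| ≤ A χ H (fun z => |f z|) := by
  unfold A
  have h0 : (0 : ℝ) ≤ 1 / (q : ℝ) := by positivity
  rw [abs_mul, abs_of_nonneg h0]
  exact mul_le_mul_of_nonneg_left (Finset.abs_sum_le_sum_abs _ _) h0

private theorem moment_aux {q : ℕ → ℕ} {χ : (k : ℕ) → DirichletCharacter ℂ (q k)} {H : ℕ → ℕ}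
    (hc : CLT q χ H) (h2 : Tendsto (fun k => A (χ k) (H k) (fun z => ‖z‖ ^ 2)) atTop (𝓝 1))
    (p : ℂ → ℝ) (hp : Continuous p) (hb : ∀ z, |p z| ≤ ‖z‖ ^ 2)
    (h0 : ∀ T : ℝ, 0 < T → G (fun z => p z / (1 + ‖z‖ ^ 2 / T)) = 0) :
    Tendsto (fun k => A (χ k) (H k) p) atTop (𝓝 0) := by
  rw [Metric.tendsto_atTop]
  intro ε hε
  obtain ⟨N, hN⟩ := Metric.tendsto_atTop.1 G_norm (ε / 4) (by positivity)
  have hT := hN N le_rfl
  generalize hTd : (N : ℝ) + 1 = T at hT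
  have hT0 : 0 < T := by
    rw [← hTd]
    positivity
  have hden : ∀ z : ℂ, 0 < 1 + ‖z‖ ^ 2 / T := fun z => by positivity
  have hden1 : ∀ z : ℂ, 1 ≤ 1 + ‖z‖ ^ 2 / T := fun z => by
    have : 0 ≤ ‖z‖ ^ 2 / T := by positivity
    linarith
  have c0 : Continuous fun z : ℂ => ‖z‖ ^ 2 := by fun_prop
  have c1 : Continuous fun z : ℂ => 1 + ‖z‖ ^ 2 / T := by fun_prop
  have c2 : Continuous fun z : ℂ => p z / (1 + ‖z‖ ^ 2 / T) := hp.div c1 fun z => (hden z).ne'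
  have c3 : Continuous fun z : ℂ => ‖z‖ ^ 2 / (1 + ‖z‖ ^ 2 / T) :=
    c0.div c1 fun z => (hden z).ne'
  have b3 : ∀ z : ℂ, ‖z‖ ^ 2 / (1 + ‖z‖ ^ 2 / T) ≤ T := fun z => by
    rw [div_le_iff₀ (hden z)]
    have e : T * (1 + ‖z‖ ^ 2 / T) = T + ‖z‖ ^ 2 := by field_simp
    rw [e]
    linarith
  have l2 := hc _ c2 ⟨T, fun z => by
    rw [abs_div, abs_of_pos (hden z)]
    exact (div_le_div_of_nonneg_right (hb z) (hden z).le).trans (b3 z)⟩
  rw [h0 T hT0] at l2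
  have l3 := hc _ c3 ⟨T, fun z => by
    rw [abs_of_nonneg (by positivity)]
    exact b3 z⟩
  obtain ⟨N1, h1⟩ := Metric.tendsto_atTop.1 l2 (ε / 4) (by positivity)
  obtain ⟨N2, h3⟩ := Metric.tendsto_atTop.1 l3 (ε / 4) (by positivity)
  obtain ⟨N3, h4⟩ := Metric.tendsto_atTop.1 h2 (ε / 4) (by positivity)
  refine ⟨N1 + (N2 + N3), fun k hk => ?_⟩
  have k1 := h1 k (by omega)
  have k2 := h3 k (by omega)
  have k3 := h4 k (by omega)
  rw [Real.dist_eq] at k1 k2 k3 hT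
  rw [Real.dist_eq, sub_zero]
  rw [sub_zero] at k1
  have e1 := A_sub (χ k) (H k) p (fun z => p z / (1 + ‖z‖ ^ 2 / T))
  have e2 : |A (χ k) (H k) (fun z => p z - p z / (1 + ‖z‖ ^ 2 / T))| ≤
      A (χ k) (H k) (fun z => ‖z‖ ^ 2 - ‖z‖ ^ 2 / (1 + ‖z‖ ^ 2 / T)) := by
    refine (A_abs _ _ _).trans (A_mono _ _ fun z => ?_)
    have f1 : p z - p z / (1 + ‖z‖ ^ 2 / T) = p z * (1 - 1 / (1 + ‖z‖ ^ 2 / T)) := by ring
    have f2 : ‖z‖ ^ 2 - ‖z‖ ^ 2 / (1 + ‖z‖ ^ 2 / T) =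
        ‖z‖ ^ 2 * (1 - 1 / (1 + ‖z‖ ^ 2 / T)) := by ring
    have f3 : 0 ≤ 1 - 1 / (1 + ‖z‖ ^ 2 / T) := by
      have := (div_le_one (hden z)).2 (hden1 z)
      linarith
    rw [f1, f2, abs_mul, abs_of_nonneg f3]
    exact mul_le_mul_of_nonneg_right (hb z) f3
  have e3 := A_sub (χ k) (H k) (fun z => ‖z‖ ^ 2) (fun z => ‖z‖ ^ 2 / (1 + ‖z‖ ^ 2 / T))
  rw [e3, e1] at e2
  rw [abs_lt] at k1 k2 k3 hT
  rw [abs_le] at e2
  rw [abs_lt]
  constructor <;> linarith [e2.1, e2.2, k1.1, k1.2, k2.1, k2.2, k3.1, k3.2, hT.1, hT.2]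

/-- `a k f` stands for the mean `A (χ k) (H k) f`; only linearity, monotonicity are used.
Proof: for `T` put `u = ‖z‖^2`, `c_T(z) = 1 / (1 + u / T)`. Then
`|a k (re z^2)| ≤ |a k (re z^2 c_T)| + a k (u (1 - c_T))`, and
`a k (u (1 - c_T)) = a k u - a k (u c_T) → 1 - G (u c_T)`, small for large `T`. -/
theorem moment {q : ℕ → ℕ} {χ : (k : ℕ) → DirichletCharacter ℂ (q k)} {H : ℕ → ℕ}
    (hc : CLT q χ H) (h2 : Tendsto (fun k => A (χ k) (H k) (fun z => ‖z‖ ^ 2)) atTop (𝓝 1)) :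
    Tendsto (fun k => A (χ k) (H k) (fun z => (z ^ 2).re)) atTop (𝓝 0) ∧
    Tendsto (fun k => A (χ k) (H k) (fun z => (z ^ 2).im)) atTop (𝓝 0) := by
  constructor
  · refine moment_aux hc h2 _ (by fun_prop) (fun z => ?_) fun T hT => G_re hT
    rw [← norm_pow]
    exact Complex.abs_re_le_norm _
  · refine moment_aux hc h2 _ (by fun_prop) (fun z => ?_) fun T hT => G_im hT
    rw [← norm_pow]
    exact Complex.abs_im_le_norm _

end CharCLT
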